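import Pool.Agent.Run7.h334.ET.Red

/-!
# MP_2429c0_al: reduction of Q1 to fields of bounded transcendence degree over the prime field

Let `F` be a field with `2 ≠ 0` and with `n` square classes, `n` finite. Then `F` contains a subfield
`K`, relatively algebraically closed in `F`, which is algebraic over a subfield with at most
`n + 2 n ^ 2` generators, and which has the same quaternionic structure as `F` (so the same number of
square classes and, as the structure determines it, an isomorphic Witt ring). Generators:
representatives `t_g` of the square classes, and for each pair `(g, h)` for which the form
`x ^ 2 - t_g y ^ 2` represents `t_h` one representation.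

Consequently Q1 (for the quaternionic structures) holds for all fields if and only if it holds for
the fields `K` with `n` square classes which are algebraic over a subfield with `n + 2 n ^ 2`
generators; these fields are countable and of transcendence degree at most `n + 2 n ^ 2` over the
prime field.

`FinSq F`: finitely many square classes; `sqClasses F`: their number; `FinTr K m`: `K` is algebraic
over a subfield which is generated by at most `m` elements; `IsStructureOf F S`: `S` is the
quaternionic structure of `F`; `Elem S`: `S` is of elementary type (definitions of the starting files
on this page).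
-/

set_option autoImplicit false

namespace Pool.Agent.Results.MP_2429c0_al.FiniteTranscendenceDegree

open Pool.Agent.TH188.ET Pool.Agent.H315R3.ETC Run7.h334.ET

theorem result :
    (∀ (F : Type) [Field F], (2 : F) ≠ 0 → FinSq F →
      ∃ K : Subfield F, (∀ x : F, IsAlgebraic K x → x ∈ K) ∧ FinSq K ∧
        sqClasses K = sqClasses F ∧ FinTr K (sqClasses F + 2 * sqClasses F ^ 2) ∧
        ∀ S : QData, IsStructureOf F S → IsStructureOf K S) ∧
    ((∀ (F : Type) [Field F], (2 : F) ≠ 0 → FinSq F → ∃ S, Elem S ∧ IsStructureOf F S) ↔
      ∀ (F : Type) [Field F], (2 : F) ≠ 0 → FinSq F →
        FinTr F (sqClasses F + 2 * sqClasses F ^ 2) → ∃ S, Elem S ∧ IsStructureOf F S) :=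
  ⟨fun _ _ h2 hfin => reduction h2 hfin, q1_iff⟩

end Pool.Agent.Results.MP_2429c0_al.FiniteTranscendenceDegree
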