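import Pool.Agent.Run7.h948.QF.FieldU

/-! # MP_2429c0_al: fields with `K_2(F)/2` of order at most 32 and norm groups of index two

Let `F` be a field of characteristic `≠ 2` with finitely many square classes, and let `N(a)` be the
group of the nonzero values of `x² - a y²`.  If `K_2(F)/2` has at most 32 elements, and for each `a`
with `N(a)` of index two in `F*` there is a `b ∉ N(a)` with `N(b)` of index at most eight, or the
norm groups `N(c)` of index 32 belong to less than one eighth of the square classes, then the
quaternionic structure of `F` is of elementary type.  In particular this holds if no `N(a)` has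
index two, or if no `N(c)` has index 32.  There is also a local form of the theorem on norm groups
of index two: it is enough that, for all `x, y, z` which are independent
modulo squares, the subgroup of `K_2(F)/2` generated by the symbols `{x,b}, {y,b}, {z,b}` has at
most 32 elements and the number of square classes of elements `p ∈ ⟨x,y,z⟩` with `N(p)` of index two
is not one, or that there are at most 27 quaternion algebras `(g,b)` with `g ∈ ⟨x,y,z⟩`. -/

set_option autoImplicit false

namespace Pool.Agent.Results.MP_2429c0_al.NoIndexTwo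

open scoped Quaternion
open Pool.Agent.H315R3.ETC Pool.Agent.TH188.ET

universe u

/-- there are at most `n` quaternion algebras `(g,b)`, `g ∈ W`, up to isomorphism -/
def AtMost {F : Type u} [Field F] (n : ℕ) (W : Set Fˣ) : Prop :=
  ∃ l : Fin n → Fˣ × Fˣ, ∀ g ∈ W, ∀ b : Fˣ,
    ∃ i, Nonempty (ℍ[F,(g : F),0,(b : F)] ≃ₐ[F] ℍ[F,((l i).1 : F),0,((l i).2 : F)])

/-- the group of the nonzero values of the norm form `x² - a y²` -/
def normGroup {F : Type u} [Field F] (a : Fˣ) : Subgroup Fˣ where
  carrier := {c | ∃ x y : F, (c : F) = x ^ 2 - a * y ^ 2}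
  one_mem' := NormFrom.one a
  mul_mem' := NormFrom.mul
  inv_mem' := NormFrom.inv

/-- the group of squares of `F*` -/
def squares (F : Type u) [Field F] : Subgroup Fˣ := (powMonoidHom 2 : Fˣ →* Fˣ).range

/-- `x, y, z` are independent modulo squares -/
def Independent {F : Type u} [Field F] (x y z : Fˣ) : Prop :=
  ¬ IsSquare x ∧ ¬ IsSquare y ∧ ¬ IsSquare (x * y) ∧ ¬ IsSquare z ∧ ¬ IsSquare (x * z) ∧
    ¬ IsSquare (y * z) ∧ ¬ IsSquare (x * y * z)

/-- `{a, F*}`: the subgroup of `K_2(F)/2` generated by all symbols `{a,b}`, `b ∈ F*` -/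
def QGroup {F : Type u} [Field F] (a : Fˣ) : AddSubgroup (K2 F) :=
  AddSubgroup.closure (Set.range (sy a))

/-- the square classes of the elements `p ∈ ⟨x,y,z⟩` whose norm group has index two -/
def IndexTwo {F : Type u} [Field F] (x y z : Fˣ) : Set (Fˣ ⧸ squares F) :=
  {c | ∃ p ∈ (Subgroup.closure {x, y, z} : Subgroup Fˣ), (p : Fˣ ⧸ squares F) = c ∧
    (normGroup p).index = 2}

/-- the square classes whose norm group has index more than 16 -/
def Universal (F : Type u) [Field F] : Set (Fˣ ⧸ squares F) :=
  {x | ∃ c : Fˣ, (c : Fˣ ⧸ squares F) = x ∧ 16 < (normGroup c).index}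

theorem result {F : Type u} [Field F] (h2 : (2 : F) ≠ 0) (hfin : (squares F).index ≠ 0) :
    -- `K_2(F)/2` has at most 32 elements, and for each `a` with a norm group of index two there is
    -- a `b` which is not in the norm group of `a` and has a norm group of index at most eight,
    -- or else less than one eighth of the square classes have a norm group of index more than 16
    (Finite (K2 F) → Nat.card (K2 F) ≤ 32 →
      ((∀ a : Fˣ, (normGroup a).index = 2 → ∃ b : Fˣ, b ∉ normGroup a ∧
        (normGroup b).index ≤ 8) ∨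
        8 * (Universal F).ncard < (squares F).index) →
      ∃ S : QData, Elem S ∧ IsStructureOf F S) ∧
    -- for all `x, y, z` which are independent modulo squares: `{x,F*} + {y,F*} + {z,F*}` has at
    -- most 32 elements, and the number of square classes in `⟨x,y,z⟩` with a norm group of index
    -- two is not one,
    ((∀ x y z : Fˣ, Independent x y z →
      (Nat.card (QGroup x ⊔ QGroup y ⊔ QGroup z : AddSubgroup (K2 F)) ≤ 32 ∧
        (IndexTwo x y z).ncard ≠ 1) ∨
      -- or there are at most 27 quaternion algebras with a slot in `⟨x,y,z⟩`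
      AtMost 27 ((Subgroup.closure {x, y, z} : Subgroup Fˣ) : Set Fˣ)) →
      ∃ S : QData, Elem S ∧ IsStructureOf F S) := by
  have hfin' : (powMonoidHom 2 : Fˣ →* Fˣ).range.index ≠ 0 := hfin
  have hF : FinSq F := by
    have : Finite (Fˣ ⧸ (powMonoidHom 2 : Fˣ →* Fˣ).range) := by
      by_contra hc
      rw [not_finite_iff_infinite] at hc
      exact hfin' Nat.card_eq_zero_of_infinite
    exact this
  have hN : ∀ p : Fˣ, (normGroup p).index =
      Nat.card (Pool.Agent.TH188.ETV.Qs (Pool.Agent.TH188.ETF.bq h2) p) := fun p =>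
    Pool.Agent.Run7.h948.QF.nG_index h2 p
  refine ⟨fun hf hc h => ?_, ?_⟩
  · obtain ⟨h3, h4⟩ := Pool.Agent.Run7.h948.QF.BB2_K2 h2 hf
    rcases h with h | h
    · exact Pool.Agent.Run7.h948.QF.field_E h2 hF h3 (h4.trans hc) h
    · exact Pool.Agent.Run7.h948.QF.field_U h2 hF h3 (h4.trans hc) h
  · intro h
    refine Pool.Agent.Run7.h948.QF.field_T h2 hF fun x y z hI => ?_
    rcases h x y z hI with ⟨h32, h1⟩ | ⟨l, hl⟩
    · have hf : ∀ a : Fˣ, Finite (Pool.Agent.TH188.ETV.Qs (sy (F := F)) a) := fun a =>
        Pool.Agent.TH188.ETF.finite_Qs hF a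
      have hfs := Pool.Agent.Run7.h948.QF.fin_sup _ _
        (Pool.Agent.Run7.h948.QF.fin_sup _ _ (hf x) (hf y)) (hf z)
      have h3 := Pool.Agent.Run7.h948.QF.card_K2 h2 x y z hfs
      rcases Pool.Agent.Run7.h948.QF.two_of_ncard h2 hF h1 with h4 |
        ⟨p, hp, q, hq, hs, h5, h6⟩
      · refine Or.inr (Or.inr (Or.inr ⟨h3.trans h32, fun p hp => ?_⟩))
        rw [← hN]
        exact h4 p hp
      · refine Or.inr (Or.inr (Or.inl ⟨p, hp, q, hq, hs, ?_, ?_⟩))
        · rw [← hN]; exact h5.le
        · rw [← hN]; exact h6.le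
    · exact Or.inr (Or.inl ⟨l, fun g hg b => hl g hg b⟩)

end Pool.Agent.Results.MP_2429c0_al.NoIndexTwo
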