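import Pool.Agent.Run7.h948.QF.FieldT

/-! # MP_2429c0_al: one small norm group in each affine plane

Let `F` be a field of characteristic `≠ 2` with finitely many square classes, and let `N(a)` be the
group of the nonzero values of `x² - a y²`.  If for all `x, y, z`, independent modulo squares, at
least one of the four groups `N(x)`, `N(y)`, `N(z)`, `N(xyz)` has index at most four in `F*`, then
the quaternionic structure of `F` is of elementary type.  It is also enough that, for all
independent `x, y, z`, this holds, or `N(p)` and `N(q)` have index at most two for two different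
nontrivial square classes `p, q` in the group generated by `x, y, z`, or there are at most 27
quaternion algebras `(g,b)` with `g` in the group generated by `x, y, z`. -/

set_option autoImplicit false

namespace Pool.Agent.Results.MP_2429c0_al.OneSmallNormGroup

open scoped Quaternion
open Pool.Agent.H315R3.ETC Pool.Agent.TH188.ET

universe u

/-- there are at most `n` quaternion algebras `(g,b)`, `g ∈ W`, up to isomorphism -/
def AtMost {F : Type u} [Field F] (n : ℕ) (W : Set Fˣ) : Prop :=
  ∃ l : Fin n → Fˣ × Fˣ, ∀ g ∈ W, ∀ b : Fˣ,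
    ∃ i, Nonempty (ℍ[F,(g : F),0,(b : F)] ≃ₐ[F] ℍ[F,((l i).1 : F),0,((l i).2 : F)])

/-- the group of the nonzero values of the norm form `x² - a y²` -/
def normGroup {F : Type u} [Field F] (a : Fˣ) : Subgroup Fˣ where
  carrier := {c | ∃ x y : F, (c : F) = x ^ 2 - a * y ^ 2}
  one_mem' := NormFrom.one a
  mul_mem' := NormFrom.mul
  inv_mem' := NormFrom.inv

/-- `x, y, z` are independent modulo squares -/
def Independent {F : Type u} [Field F] (x y z : Fˣ) : Prop :=
  ¬ IsSquare x ∧ ¬ IsSquare y ∧ ¬ IsSquare (x * y) ∧ ¬ IsSquare z ∧ ¬ IsSquare (x * z) ∧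
    ¬ IsSquare (y * z) ∧ ¬ IsSquare (x * y * z)

theorem result {F : Type u} [Field F] (h2 : (2 : F) ≠ 0)
    (hfin : (powMonoidHom 2 : Fˣ →* Fˣ).range.index ≠ 0)
    -- for all `x, y, z` which are independent modulo squares:
    (h : ∀ x y z : Fˣ, Independent x y z →
      -- one of the norm groups of `x`, `y`, `z`, `xyz` has index at most four,
      (∃ p : Fˣ, (p = x ∨ p = y ∨ p = z ∨ p = x * y * z) ∧ (normGroup p).index ≤ 4) ∨
      -- or two have index at most two,
      (∃ p ∈ Subgroup.closure {x, y, z}, ∃ q ∈ Subgroup.closure {x, y, z},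
        ¬ IsSquare p ∧ ¬ IsSquare q ∧ ¬ IsSquare (p * q) ∧
        (normGroup p).index ≤ 2 ∧ (normGroup q).index ≤ 2) ∨
      -- or there are at most 27 quaternion algebras with a slot in `⟨x,y,z⟩`
      AtMost 27 ((Subgroup.closure {x, y, z} : Subgroup Fˣ) : Set Fˣ)) :
    ∃ S : QData, Elem S ∧ IsStructureOf F S := by
  have hF : FinSq F := by
    have : Finite (Fˣ ⧸ (powMonoidHom 2 : Fˣ →* Fˣ).range) := by
      by_contra hc
      rw [not_finite_iff_infinite] at hc
      exact hfin Nat.card_eq_zero_of_infinite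
    exact this
  have hN : ∀ p : Fˣ, (normGroup p).index =
      Nat.card (Pool.Agent.TH188.ETV.Qs (Pool.Agent.TH188.ETF.bq h2) p) := fun p =>
    Pool.Agent.Run7.h948.QF.nG_index h2 p
  refine Pool.Agent.Run7.h948.QF.field_T h2 hF fun x y z hI => ?_
  rcases h x y z hI with ⟨p, hp, h⟩ | ⟨p, hp, q, hq, n1, n2, n3, h1, h2'⟩ | ⟨l, hl⟩
  · exact Or.inl ⟨p, hp, by rw [← hN]; exact h⟩
  · exact Or.inr (Or.inr (Or.inl ⟨p, hp, q, hq, ⟨n1, n2, n3⟩, by rw [← hN]; exact h1,
      by rw [← hN]; exact h2'⟩))
  · exact Or.inr (Or.inl ⟨l, fun g hg b => hl g hg b⟩)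

end Pool.Agent.Results.MP_2429c0_al.OneSmallNormGroup
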